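import Pool.Agent.Helper44.GN.Defs
import Pool.Agent.Helper94.GF.LINK

/-! # Module LNK: the integral `MM` for the finite model. -/

open Finset MeasureTheory Filter Topology Matrix
open scoped ENNReal ContDiff

namespace Pool.Agent.Helper44.GN

open Pool.Agent.Helper44.GF

theorem lnk_yy_meas (α a : ℝ) : Measurable (yy α a) := by
  unfold yy
  fun_prop

theorem lnk_yy_cont (α a : ℝ) {δ : ℝ} (hδ : 0 < δ) : ContinuousOn (yy α a) (Set.Icc δ 1) := by
  unfold yy
  refine continuousOn_const.add (continuousOn_const.mul ?_)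
  intro z hz
  exact (Real.continuousAt_rpow_const z _
    (Or.inl (lt_of_lt_of_le hδ hz.1).ne')).continuousWithinAt

theorem lnk_fac_cont (α a : ℝ) {δ : ℝ} (hδ : 0 < δ) (u : ℝ) :
    ContinuousOn (fun z : ℝ => z ^ 3 * Real.exp (-(u * yy α a z))) (Set.Icc δ 1) := by
  have h1 := lnk_yy_cont α a hδ
  refine (continuousOn_id.pow 3).mul (Real.continuous_exp.comp_continuousOn ?_)
  exact (continuousOn_const.mul h1).neg

/-- The one dimensional integral. -/
noncomputable def lnk_psi (α a δ u : ℝ) : ℝ :=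
  ∫ z in δ..1, z ^ 3 * Real.exp (-(u * yy α a z))

theorem lnk_psi_pos (α a : ℝ) {δ : ℝ} (hδ : 0 < δ) (hδ1 : δ < 1) (u : ℝ) :
    0 < lnk_psi α a δ u := by
  unfold lnk_psi
  refine intervalIntegral.intervalIntegral_pos_of_pos_on ?_ ?_ hδ1
  · exact ContinuousOn.intervalIntegrable_of_Icc hδ1.le (lnk_fac_cont α a hδ u)
  · intro z hz
    have : 0 < z := lt_trans hδ hz.1
    positivity

theorem lnk_psi0_pos {δ : ℝ} (hδ : 0 < δ) (hδ1 : δ < 1) : 0 < ∫ z in δ..1, z ^ 3 := by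
  refine intervalIntegral.intervalIntegral_pos_of_pos_on ?_ ?_ hδ1
  · exact ContinuousOn.intervalIntegrable_of_Icc hδ1.le (by fun_prop)
  · intro z hz
    have : 0 < z := lt_trans hδ hz.1
    positivity

theorem lnk_exp_lam (α a : ℝ) {δ : ℝ} (hδ : 0 < δ) (hδ1 : δ < 1) (N : ℕ) (u : ℝ) :
    Real.exp (-lamf α a δ N u) = (lnk_psi α a δ u / ∫ z in δ..1, z ^ 3) ^ N := by
  have h1 := lnk_psi_pos α a hδ hδ1 u
  have h2 := lnk_psi0_pos hδ hδ1
  unfold lamf
  rw [neg_neg, Real.exp_nat_mul]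
  congr 1
  exact Real.exp_log (div_pos h1 h2)

theorem lnk_prod_rep {n N : ℕ} (g : Fin n → ℝ) :
    ∏ x : Fin (n * N), g (finProdFinEquiv.symm x).1 = ∏ i, g i ^ N := by
  rw [Fintype.prod_equiv finProdFinEquiv.symm (fun x : Fin (n * N) => g (finProdFinEquiv.symm x).1)
    (fun p : Fin n × Fin N => g p.1) (fun x => rfl), Fintype.prod_prod_type]
  refine Finset.prod_congr rfl fun i _ => ?_
  simp

theorem lnk_sum_rep {n N : ℕ} (u : Fin n → ℝ) (y : Fin (n * N) → ℝ) :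
    ∑ x : Fin (n * N), u (finProdFinEquiv.symm x).1 * y x = ∑ i, Rs N y i * u i := by
  rw [Fintype.sum_equiv finProdFinEquiv.symm
    (fun x : Fin (n * N) => u (finProdFinEquiv.symm x).1 * y x)
    (fun p : Fin n × Fin N => u p.1 * y (finProdFinEquiv p))
    (fun x => by simp only [Equiv.apply_symm_apply]), Fintype.sum_prod_type]
  refine Finset.sum_congr rfl fun i _ => ?_
  unfold Rs
  rw [Finset.sum_mul]
  exact Finset.sum_congr rfl fun k _ => mul_comm _ _

/-- The joint integrand. -/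
noncomputable def lnk_F {n m : ℕ} (α a : ℝ) (N : ℕ) (V : Matrix (Fin n) (Fin m) ℝ)
    (z : Fin (n * N) → ℝ) (t : Fin m → ℝ) : ℝ :=
  ∏ x, (z x ^ 3 * Real.exp (-((V.mulVec t (finProdFinEquiv.symm x).1) ^ 2 * yy α a (z x))))

theorem lnk_F_eq {n m : ℕ} (α a : ℝ) (N : ℕ) (V : Matrix (Fin n) (Fin m) ℝ)
    (z : Fin (n * N) → ℝ) (t : Fin m → ℝ) :
    lnk_F α a N V z t
      = wz z * Real.exp (-∑ i, Rs N (Yv α a z) i * (V.mulVec t i) ^ 2) := by
  unfold lnk_F wz
  rw [Finset.prod_mul_distrib, ← Real.exp_sum, Finset.sum_neg_distrib]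
  congr 3
  exact lnk_sum_rep (fun i => (V.mulVec t i) ^ 2) (Yv α a z)

theorem lnk_F_meas {n m : ℕ} (α a : ℝ) (N : ℕ) (V : Matrix (Fin n) (Fin m) ℝ) :
    Measurable (Function.uncurry (lnk_F α a N V)) := by
  have hy := lnk_yy_meas α a
  have hV : ∀ i, Measurable (fun p : (Fin (n * N) → ℝ) × (Fin m → ℝ) => V.mulVec p.2 i) := by
    intro i
    unfold Matrix.mulVec dotProduct
    fun_prop
  unfold Function.uncurry lnk_F
  refine Finset.measurable_fun_prod _ fun x _ => ?_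
  refine Measurable.mul ?_ ?_
  · exact ((measurable_pi_apply x).comp measurable_fst).pow_const 3
  · refine Real.measurable_exp.comp (Measurable.neg ?_)
    exact ((hV _).pow_const 2).mul (hy.comp ((measurable_pi_apply x).comp measurable_fst))

theorem lnk_Bx_meas (n : ℕ) (δ : ℝ) : MeasurableSet (Bx n δ) :=
  MeasurableSet.univ_pi fun _ => measurableSet_Icc

theorem lnk_Bx_comp (n : ℕ) (δ : ℝ) : IsCompact (Bx n δ) :=
  isCompact_univ_pi fun _ => isCompact_Icc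

theorem lnk_Rs_ge (hYD : ST_YD) {n N : ℕ} {α a δ : ℝ} (hP : Pm α a δ) (hN : 1 ≤ N)
    {z : Fin (n * N) → ℝ} (hz : z ∈ Bx (n * N) δ) (i : Fin n) : 1 ≤ Rs N (Yv α a z) i := by
  unfold Rs
  have h1 : ∀ k : Fin N, 1 ≤ Yv α a z (finProdFinEquiv (i, k)) := by
    intro k
    have hz1 : 0 < z (finProdFinEquiv (i, k)) :=
      lt_of_lt_of_le hP.d0 (hz _ (Set.mem_univ _)).1
    exact (hYD α a hP.al hP.au hP.a0 _ hz1).1.le
  have h2 : ∑ k : Fin N, (1 : ℝ) ≤ ∑ k : Fin N, Yv α a z (finProdFinEquiv (i, k)) :=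
    Finset.sum_le_sum fun k _ => h1 k
  have h3 : ∑ k : Fin N, (1 : ℝ) = N := by simp
  rw [h3] at h2
  have h4 : (1 : ℝ) ≤ N := by exact_mod_cast hN
  linarith

theorem lnk_F_nonneg {n m : ℕ} (α a : ℝ) (N : ℕ) (V : Matrix (Fin n) (Fin m) ℝ) {δ : ℝ}
    (hδ : 0 < δ) {z : Fin (n * N) → ℝ} (hz : z ∈ Bx (n * N) δ) (t : Fin m → ℝ) :
    0 ≤ lnk_F α a N V z t := by
  unfold lnk_F
  refine Finset.prod_nonneg fun x _ => ?_
  have hz1 : 0 < z x := lt_of_lt_of_le hδ (hz x (Set.mem_univ _)).1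
  positivity

theorem lnk_F_le (hYD : ST_YD) {n m N : ℕ} {α a δ : ℝ} (hP : Pm α a δ) (hN : 1 ≤ N)
    (V : Matrix (Fin n) (Fin m) ℝ) {z : Fin (n * N) → ℝ} (hz : z ∈ Bx (n * N) δ)
    (t : Fin m → ℝ) :
    lnk_F α a N V z t ≤ Real.exp (-∑ i, 1 * (V.mulVec t i) ^ 2) := by
  rw [lnk_F_eq]
  have hw0 : 0 ≤ wz z := by
    unfold wz
    refine Finset.prod_nonneg fun x _ => ?_
    have hz1 : 0 < z x := lt_of_lt_of_le hP.d0 (hz x (Set.mem_univ _)).1
    positivity
  have hw1 : wz z ≤ 1 := by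
    unfold wz
    refine Finset.prod_le_one (fun x _ => ?_) (fun x _ => ?_)
    · have hz1 : 0 < z x := lt_of_lt_of_le hP.d0 (hz x (Set.mem_univ _)).1
      positivity
    · have hz1 : 0 < z x := lt_of_lt_of_le hP.d0 (hz x (Set.mem_univ _)).1
      have hz2 : z x ≤ 1 := (hz x (Set.mem_univ _)).2
      exact pow_le_one₀ hz1.le hz2
  have he : Real.exp (-∑ i, Rs N (Yv α a z) i * (V.mulVec t i) ^ 2)
      ≤ Real.exp (-∑ i, 1 * (V.mulVec t i) ^ 2) := by
    refine Real.exp_le_exp.mpr (neg_le_neg (Finset.sum_le_sum fun i _ => ?_))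
    exact mul_le_mul_of_nonneg_right (lnk_Rs_ge hYD hP hN hz i) (sq_nonneg _)
  calc wz z * Real.exp (-∑ i, Rs N (Yv α a z) i * (V.mulVec t i) ^ 2)
      ≤ 1 * Real.exp (-∑ i, 1 * (V.mulVec t i) ^ 2) :=
        mul_le_mul hw1 he (Real.exp_pos _).le zero_le_one
    _ = _ := one_mul _

theorem lnk_integrable (hYD : ST_YD) {n m N : ℕ} {α a δ : ℝ} (hP : Pm α a δ) (hN : 1 ≤ N)
    (V : Matrix (Fin n) (Fin m) ℝ) (hV : Function.Injective V.mulVec) :
    Integrable (Function.uncurry (lnk_F α a N V))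
      ((volume.restrict (Bx (n * N) δ)).prod volume) := by
  have hfin : IsFiniteMeasure (volume.restrict (Bx (n * N) δ)) :=
    ⟨by rw [Measure.restrict_apply_univ]; exact (lnk_Bx_comp _ _).measure_lt_top⟩
  have h1 : Integrable (fun _ : Fin (n * N) → ℝ => (1 : ℝ)) (volume.restrict (Bx (n * N) δ)) :=
    integrable_const _
  have h2 := (link_gauss V hV (fun _ => 1) (fun _ => one_pos)).1
  have h3 := h1.mul_prod h2
  refine h3.mono' (lnk_F_meas α a N V).aestronglyMeasurable ?_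
  have h4 : (volume.restrict (Bx (n * N) δ)).prod (volume : Measure (Fin m → ℝ))
      = ((volume : Measure (Fin (n * N) → ℝ)).prod (volume : Measure (Fin m → ℝ))).restrict
        (Bx (n * N) δ ×ˢ Set.univ) := by
    rw [← Measure.prod_restrict, Measure.restrict_univ]
  rw [h4]
  rw [ae_restrict_iff' ((lnk_Bx_meas _ _).prod MeasurableSet.univ)]
  refine Filter.Eventually.of_forall fun p hp => ?_
  have hz : p.1 ∈ Bx (n * N) δ := hp.1
  show ‖lnk_F α a N V p.1 p.2‖ ≤ 1 * Real.exp (-∑ i, 1 * (V.mulVec p.2 i) ^ 2)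
  rw [Real.norm_of_nonneg (lnk_F_nonneg α a N V hP.d0 hz p.2), one_mul]
  exact lnk_F_le hYD hP hN V hz p.2

theorem lnk_inner {n m N : ℕ} (α a : ℝ) {δ : ℝ} (hδ1 : δ < 1)
    (V : Matrix (Fin n) (Fin m) ℝ) (t : Fin m → ℝ) :
    ∫ z in Bx (n * N) δ, lnk_F α a N V z t = ∏ i, lnk_psi α a δ ((V.mulVec t i) ^ 2) ^ N := by
  have h1 : (volume.restrict (Bx (n * N) δ) : Measure (Fin (n * N) → ℝ))
      = Measure.pi fun _ : Fin (n * N) => (volume.restrict (Set.Icc δ 1) : Measure ℝ) := by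
    unfold Bx
    rw [volume_pi, Measure.restrict_pi_pi]
  rw [h1]
  unfold lnk_F
  rw [integral_fintype_prod_eq_prod (μ := fun _ : Fin (n * N) =>
    (volume.restrict (Set.Icc δ 1) : Measure ℝ)) (f := fun (x : Fin (n * N)) (s : ℝ) =>
      s ^ 3 * Real.exp (-((V.mulVec t (finProdFinEquiv.symm x).1) ^ 2 * yy α a s)))]
  rw [← lnk_prod_rep (fun i => lnk_psi α a δ ((V.mulVec t i) ^ 2))]
  refine Finset.prod_congr rfl fun x _ => ?_
  unfold lnk_psi
  rw [intervalIntegral.integral_of_le hδ1.le, integral_Icc_eq_integral_Ioc]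

theorem st_LNK (hREP : ST_REP) (hYD : ST_YD) : ST_LNK := by
  intro n m N α a δ hP hN
  have hδ1 : δ < 1 := by linarith [hP.d1]
  have hG := link_gauss_pos m
  have h0 := lnk_psi0_pos hP.d0 hδ1
  refine ⟨(∫ z in δ..1, z ^ 3) ^ (n * N) / ∫ y : Fin m → ℝ, Real.exp (-∑ j, y j ^ 2),
    div_pos (pow_pos h0 _) hG, ?_⟩
  intro V hV
  obtain ⟨-, hTT, hOg⟩ := hREP n m N hN
  -- the right side
  have hR : MM (lamf α a δ N) V = ((∫ z in δ..1, z ^ 3) ^ (n * N))⁻¹
      * ∫ t : Fin m → ℝ, ∏ i, lnk_psi α a δ ((V.mulVec t i) ^ 2) ^ N := by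
    unfold MM
    rw [← integral_const_mul]
    refine integral_congr_ae (Filter.Eventually.of_forall fun t => ?_)
    show Real.exp (-∑ i, lamf α a δ N ((V.mulVec t i) ^ 2)) = _
    rw [← Finset.sum_neg_distrib, Real.exp_sum]
    simp only [lnk_exp_lam α a hP.d0 hδ1]
    simp only [div_pow, Finset.prod_div_distrib]
    rw [Finset.prod_const, Finset.card_univ, Fintype.card_fin, ← pow_mul, mul_comm N n]
    rw [div_eq_inv_mul]
  -- the left side
  have hL : (∫ y : Fin m → ℝ, Real.exp (-∑ j, y j ^ 2))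
      * ∫ z in Bx (n * N) δ, rho (rp N V) α a z
      = ∫ z in Bx (n * N) δ, ∫ t, lnk_F α a N V z t := by
    rw [← integral_const_mul]
    refine setIntegral_congr_fun (lnk_Bx_meas _ _) fun z hz => ?_
    have hR0 : ∀ i, 0 < Rs N (Yv α a z) i := fun i =>
      lt_of_lt_of_le one_pos (lnk_Rs_ge hYD hP hN hz i)
    have h3 := (link_gauss V hV (Rs N (Yv α a z)) hR0).2.2
    simp only [lnk_F_eq]
    rw [integral_const_mul, h3]
    unfold rho qf
    rw [hTT]
    unfold TT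
    ring
  rw [hR]
  have hswap : ∫ z in Bx (n * N) δ, ∫ t, lnk_F α a N V z t
      = ∫ t, ∫ z in Bx (n * N) δ, lnk_F α a N V z t :=
    integral_integral_swap (lnk_integrable hYD hP hN V hV)
  rw [hswap] at hL
  simp only [lnk_inner α a hδ1 V] at hL
  rw [← hL]
  field_simp

end Pool.Agent.Helper44.GN
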