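import Pool.Agent.Helper44.GN.Defs

/-! # Module MLSI: the modified logarithmic Sobolev inequality. -/

open Finset MeasureTheory Filter Topology Matrix
open scoped ENNReal ContDiff

namespace Pool.Agent.Helper44.GN

open Pool.Agent.Helper44.GF

theorem mlsi_meas (n : ℕ) (δ : ℝ) : MeasurableSet (Bx n δ) :=
  MeasurableSet.univ_pi fun _ => measurableSet_Icc

theorem mlsi_comp (n : ℕ) (δ : ℝ) : IsCompact (Bx n δ) :=
  isCompact_univ_pi fun _ => isCompact_Icc

theorem mlsi_vol (n : ℕ) {δ : ℝ} (h : δ < 1) : 0 < volume (Bx n δ) := by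
  unfold Bx
  rw [volume_pi_pi]
  refine pos_iff_ne_zero.mpr (Finset.prod_ne_zero_iff.mpr fun x _ => ?_)
  rw [Real.volume_Icc]
  have h1 : 0 < 1 - δ := by linarith
  exact (ENNReal.ofReal_pos.mpr h1).ne'

theorem mlsi_int {n : ℕ} {δ : ℝ} {ρ F : (Fin n → ℝ) → ℝ} (hρ : ContinuousOn ρ (Bx n δ))
    (hF : ContinuousOn F (Bx n δ)) : IntegrableOn (fun z => F z * ρ z) (Bx n δ) :=
  (hF.mul hρ).integrableOn_compact (mlsi_comp n δ)

theorem mlsi_mono {n : ℕ} {δ : ℝ} {ρ F G : (Fin n → ℝ) → ℝ} (hρ : ContinuousOn ρ (Bx n δ))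
    (h0 : ∀ z ∈ Bx n δ, 0 < ρ z) (hF : ContinuousOn F (Bx n δ)) (hG : ContinuousOn G (Bx n δ))
    (h : ∀ z ∈ Bx n δ, F z ≤ G z) : IB δ ρ F ≤ IB δ ρ G :=
  setIntegral_mono_on (mlsi_int hρ hF) (mlsi_int hρ hG) (mlsi_meas n δ) fun z hz =>
    mul_le_mul_of_nonneg_right (h z hz) (h0 z hz).le

theorem mlsi_pos {n : ℕ} {δ : ℝ} (hδ : δ < 1) {ρ F : (Fin n → ℝ) → ℝ}
    (hρ : ContinuousOn ρ (Bx n δ)) (h0 : ∀ z ∈ Bx n δ, 0 < ρ z)
    (hF : ContinuousOn F (Bx n δ)) (hFp : ∀ z ∈ Bx n δ, 0 < F z) : 0 < IB δ ρ F := by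
  unfold IB
  rw [setIntegral_pos_iff_support_of_nonneg_ae _ (mlsi_int hρ hF)]
  · refine lt_of_lt_of_le (mlsi_vol n hδ) (measure_mono ?_)
    intro z hz
    exact ⟨(mul_pos (hFp z hz) (h0 z hz)).ne', hz⟩
  · refine (ae_restrict_iff' (mlsi_meas n δ)).mpr (Filter.Eventually.of_forall fun z hz => ?_)
    exact (mul_pos (hFp z hz) (h0 z hz)).le

theorem mlsi_add {n : ℕ} {δ : ℝ} {ρ F G : (Fin n → ℝ) → ℝ} (hρ : ContinuousOn ρ (Bx n δ))
    (hF : ContinuousOn F (Bx n δ)) (hG : ContinuousOn G (Bx n δ)) :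
    IB δ ρ (fun z => F z + G z) = IB δ ρ F + IB δ ρ G := by
  unfold IB
  rw [← integral_add (mlsi_int hρ hF) (mlsi_int hρ hG)]
  refine integral_congr_ae (Filter.Eventually.of_forall fun z => ?_)
  show (F z + G z) * ρ z = F z * ρ z + G z * ρ z
  ring

theorem mlsi_smul {n : ℕ} {δ : ℝ} (ρ F : (Fin n → ℝ) → ℝ) (c : ℝ) :
    IB δ ρ (fun z => c * F z) = c * IB δ ρ F := by
  unfold IB
  rw [← integral_const_mul]
  refine integral_congr_ae (Filter.Eventually.of_forall fun z => ?_)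
  show c * F z * ρ z = c * (F z * ρ z)
  ring

theorem mlsi_der {h : ℝ → ℝ} {h' s0 : ℝ} (hs0 : 0 < s0) (hd : HasDerivAt h h' 0)
    (h0 : h 0 = 0) (hp : ∀ s, 0 < s → s ≤ s0 → 0 ≤ h s) : 0 ≤ h' := by
  have h1 : Tendsto (slope h 0) (𝓝[>] 0) (𝓝 h') := by
    have h2 := hasDerivAt_iff_tendsto_slope.mp hd
    exact h2.mono_left (nhdsWithin_mono _ fun x hx => ne_of_gt hx)
  refine ge_of_tendsto h1 ?_
  have h3 : ∀ᶠ s : ℝ in 𝓝[>] 0, s ∈ Set.Ioc (0 : ℝ) s0 := Ioc_mem_nhdsGT hs0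
  filter_upwards [h3] with s hs
  rw [slope_def_field, h0, sub_zero, sub_zero]
  exact div_nonneg (hp s hs.1 hs.2) hs.1.le

theorem mlsi_calc {I0 I1 IA G0 K s0 : ℝ} (hI0 : 0 < I0) (hG0 : 0 < G0) (hs0 : 0 < s0)
    (h : ∀ s, 0 < s → s ≤ s0 →
      (1 - s) * Real.log (I0 + s / (1 - s) * I1) + s * Real.log G0
        ≤ Real.log (I0 + s * IA + K * s ^ 2)) :
    I1 - I0 * Real.log (I0 / G0) ≤ IA := by
  have h1 : HasDerivAt (fun s : ℝ => 1 - s) (-1) 0 := by
    simpa using (hasDerivAt_id (0 : ℝ)).const_sub 1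
  have h2 : HasDerivAt (fun s : ℝ => s / (1 - s)) 1 0 := by
    have h3 : HasDerivAt (fun s : ℝ => s / (1 - s)) ((1 * (1 - 0) - 0 * (-1)) / (1 - 0) ^ 2) 0 :=
      (hasDerivAt_id (0 : ℝ)).div h1 (by norm_num)
    simpa using h3
  have h3 : HasDerivAt (fun s : ℝ => I0 + s / (1 - s) * I1) I1 0 := by
    simpa using (h2.mul_const I1).const_add I0
  have h4 : HasDerivAt (fun s : ℝ => Real.log (I0 + s / (1 - s) * I1)) (I1 / I0) 0 := by
    have h5 := h3.log (by simpa using hI0.ne')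
    simpa using h5
  have h5 : HasDerivAt (fun s : ℝ => (1 - s) * Real.log (I0 + s / (1 - s) * I1))
      (-Real.log I0 + I1 / I0) 0 := by
    have h6 : HasDerivAt (fun s : ℝ => (1 - s) * Real.log (I0 + s / (1 - s) * I1))
        (-1 * Real.log (I0 + 0 / (1 - 0) * I1) + (1 - 0) * (I1 / I0)) 0 := h1.mul h4
    simpa using h6
  have h6 : HasDerivAt (fun s : ℝ => s * Real.log G0) (Real.log G0) 0 := by
    simpa using (hasDerivAt_id (0 : ℝ)).mul_const (Real.log G0)
  have h7 : HasDerivAt (fun s : ℝ => I0 + s * IA + K * s ^ 2) IA 0 := by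
    have h8 : HasDerivAt (fun s : ℝ => I0 + s * IA + K * s ^ 2)
        (1 * IA + K * (((2 : ℕ) : ℝ) * (0 : ℝ) ^ (2 - 1))) 0 :=
      (((hasDerivAt_id (0 : ℝ)).mul_const IA).const_add I0).add
      ((hasDerivAt_pow 2 (0 : ℝ)).const_mul K)
    simpa using h8
  have h8 : HasDerivAt (fun s : ℝ => Real.log (I0 + s * IA + K * s ^ 2)) (IA / I0) 0 := by
    have h9 := h7.log (by simpa using hI0.ne')
    simpa using h9
  have h9 := h8.sub (h5.add h6)
  have h10 := mlsi_der (s0 := s0) hs0 h9 (by simp) (fun s hs hs' => by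
    have := h s hs hs'
    simpa using this)
  rw [Real.log_div hI0.ne' hG0.ne']
  have h11 : 0 ≤ I0 * (IA / I0 - (-Real.log I0 + I1 / I0 + Real.log G0)) :=
    mul_nonneg hI0.le h10
  have h12 : I0 * (IA / I0 - (-Real.log I0 + I1 / I0 + Real.log G0))
      = IA - I1 + I0 * (Real.log I0 - Real.log G0) := by
    field_simp
    ring
  rw [h12] at h11
  linarith

theorem mlsi_pt {A M c s w f L : ℝ} (hA0 : 0 ≤ A) (hAM : A ≤ M) (hc : 0 ≤ c)
    (hL : L = 2 * M + c) (hs : 0 < s) (hs1 : s ≤ 1 / 102) (hsL : s * L ≤ 1)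
    (hw : w = s / (1 - s) ^ 2 * A + c * s ^ 2) :
    Real.exp (f + w) ≤ Real.exp f + s * (Real.exp f * A)
      + (3 * M + c + L ^ 2) * s ^ 2 * Real.exp f := by
  have h1s : 0 < 1 - s := by linarith
  have hr : 1 / (1 - s) ^ 2 ≤ 1 + 3 * s := by
    rw [div_le_iff₀ (by positivity)]
    have e : (1 + 3 * s) * (1 - s) ^ 2 = 1 + s * (1 - 5 * s + 3 * s ^ 2) := by ring
    rw [e]
    have : 0 ≤ s * (1 - 5 * s + 3 * s ^ 2) := by
      refine mul_nonneg hs.le ?_
      nlinarith [sq_nonneg s]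
    linarith
  have hr2 : s / (1 - s) ^ 2 = s * (1 / (1 - s) ^ 2) := by ring
  have hM : 0 ≤ M := le_trans hA0 hAM
  have hw1 : w ≤ s * A + (3 * M + c) * s ^ 2 := by
    rw [hw, hr2]
    have e1 : s * (1 / (1 - s) ^ 2) * A ≤ s * (1 + 3 * s) * A :=
      mul_le_mul_of_nonneg_right (mul_le_mul_of_nonneg_left hr hs.le) hA0
    have e2 : 3 * s ^ 2 * A ≤ 3 * s ^ 2 * M := mul_le_mul_of_nonneg_left hAM (by positivity)
    nlinarith
  have hw0 : 0 ≤ w := by
    rw [hw]
    positivity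
  have hwL : w ≤ s * L := by
    rw [hw, hr2, hL]
    have e1 : s * (1 / (1 - s) ^ 2) * A ≤ s * (1 + 3 * s) * A :=
      mul_le_mul_of_nonneg_right (mul_le_mul_of_nonneg_left hr hs.le) hA0
    have e2 : s * (1 + 3 * s) * A ≤ s * 2 * M := by
      have e3 : 1 + 3 * s ≤ 2 := by linarith
      exact mul_le_mul (mul_le_mul_of_nonneg_left e3 hs.le) hAM hA0 (by positivity)
    have e3 : c * s ^ 2 ≤ c * s := by
      refine mul_le_mul_of_nonneg_left ?_ hc
      nlinarith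
    nlinarith
  have hexp : Real.exp w ≤ 1 + w + w ^ 2 := by
    have h1 : |w| ≤ 1 := by
      rw [abs_of_nonneg hw0]
      linarith
    have h2 := Real.abs_exp_sub_one_sub_id_le h1
    have h3 := (abs_le.mp h2).2
    linarith
  have hw2 : w ^ 2 ≤ L ^ 2 * s ^ 2 := by
    have := pow_le_pow_left₀ hw0 hwL 2
    nlinarith
  have hfin : Real.exp w ≤ 1 + s * A + (3 * M + c + L ^ 2) * s ^ 2 := by
    nlinarith
  rw [Real.exp_add]
  have h4 := mul_le_mul_of_nonneg_left hfin (Real.exp_pos f).le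
  nlinarith

theorem mlsi_low {f s : ℝ} (hs : 0 < s) (hs1 : s ≤ 1 / 102) :
    Real.exp f + s / (1 - s) * (f * Real.exp f) ≤ Real.exp (f / (1 - s)) := by
  have h1s : 0 < 1 - s := by linarith
  have e : f / (1 - s) = f + s / (1 - s) * f := by
    field_simp
    ring
  rw [e, Real.exp_add]
  have h1 := Real.add_one_le_exp (s / (1 - s) * f)
  have h2 := mul_le_mul_of_nonneg_left h1 (Real.exp_pos f).le
  nlinarith

theorem st_MLSI (hPLS : ST_PLS) : ST_MLSI := by
  intro n δ Q f D C hL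
  have hwc : ContinuousOn (fun z : Fin n → ℝ => wz z) (Bx n δ) := by
    unfold wz
    fun_prop
  have hρ : ContinuousOn (fun z : Fin n → ℝ => wz z / Q z) (Bx n δ) :=
    hwc.div hL.Qc fun z hz => (hL.Q0 z hz).ne'
  have hρ0 : ∀ z ∈ Bx n δ, 0 < wz z / Q z := by
    intro z hz
    refine div_pos ?_ (hL.Q0 z hz)
    unfold wz
    refine Finset.prod_pos fun x _ => ?_
    have hz1 : 0 < z x := lt_of_lt_of_le hL.d0 (hz x (Set.mem_univ _)).1
    positivity
  have hS : ContinuousOn (fun z : Fin n → ℝ => ∑ x, (z x * D x z) ^ 2) (Bx n δ) := by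
    refine continuousOn_finsetSum _ fun x _ => ?_
    exact (((continuous_apply x).continuousOn).mul (hL.Dc x)).pow 2
  have hA : ContinuousOn (fun z : Fin n → ℝ => 1 / 3 * ∑ x, (z x * D x z) ^ 2) (Bx n δ) :=
    continuousOn_const.mul hS
  have hef : ContinuousOn (fun z : Fin n → ℝ => Real.exp (f z)) (Bx n δ) :=
    Real.continuous_exp.comp_continuousOn hL.fc
  obtain ⟨M, hM⟩ := (mlsi_comp n δ).exists_bound_of_continuousOn hA
  have hM' : ∀ z ∈ Bx n δ, 1 / 3 * ∑ x, (z x * D x z) ^ 2 ≤ |M| := fun z hz =>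
    le_trans (le_trans (le_abs_self _) (hM z hz)) (le_abs_self M)
  have hI0 : 0 < IB δ (fun z : Fin n → ℝ => wz z / Q z) (fun z => Real.exp (f z)) :=
    mlsi_pos hL.d1 hρ hρ0 hef fun z _ => Real.exp_pos _
  have hG0 : 0 < IB δ (fun z : Fin n → ℝ => wz z / Q z) (fun _ => 1) :=
    mlsi_pos hL.d1 hρ hρ0 continuousOn_const fun z _ => one_pos
  have hc : 0 ≤ 2 * C * n := by
    have := hL.C0
    positivity
  set L : ℝ := 2 * |M| + 2 * C * n with hLdef
  have hL0 : 0 ≤ L := by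
    have := abs_nonneg M
    rw [hLdef]
    linarith
  have hIA : 1 / 3 * IB δ (fun z : Fin n → ℝ => wz z / Q z)
      (fun z => Real.exp (f z) * ∑ x, (z x * D x z) ^ 2)
      = IB δ (fun z : Fin n → ℝ => wz z / Q z)
      (fun z => Real.exp (f z) * (1 / 3 * ∑ x, (z x * D x z) ^ 2)) := by
    rw [← mlsi_smul]
    unfold IB
    refine integral_congr_ae (Filter.Eventually.of_forall fun z => ?_)
    show 1 / 3 * (Real.exp (f z) * ∑ x, (z x * D x z) ^ 2) * (wz z / Q z)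
      = Real.exp (f z) * (1 / 3 * ∑ x, (z x * D x z) ^ 2) * (wz z / Q z)
    ring
  have hI1p : ∀ᶠ s : ℝ in 𝓝[>] 0, 0 < IB δ (fun z : Fin n → ℝ => wz z / Q z)
      (fun z => Real.exp (f z)) + s / (1 - s) * IB δ (fun z : Fin n → ℝ => wz z / Q z)
      (fun z => f z * Real.exp (f z)) := by
    have h1 : ContinuousAt (fun s : ℝ => IB δ (fun z : Fin n → ℝ => wz z / Q z)
      (fun z => Real.exp (f z)) + s / (1 - s) * IB δ (fun z : Fin n → ℝ => wz z / Q z)
      (fun z => f z * Real.exp (f z))) 0 := by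
      refine continuousAt_const.add (ContinuousAt.mul ?_ continuousAt_const)
      exact continuousAt_id.div (continuousAt_const.sub continuousAt_id) (by norm_num)
    have h2 : 0 < (fun s : ℝ => IB δ (fun z : Fin n → ℝ => wz z / Q z)
      (fun z => Real.exp (f z)) + s / (1 - s) * IB δ (fun z : Fin n → ℝ => wz z / Q z)
      (fun z => f z * Real.exp (f z))) 0 := by
      simpa using hI0
    exact nhdsWithin_le_nhds (h1.eventually (lt_mem_nhds h2))
  obtain ⟨s1, hs1, hs1'⟩ := (mem_nhdsGT_iff_exists_Ioc_subset.mp hI1p)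
  have hs1p : (0 : ℝ) < s1 := hs1
  unfold En
  rw [hIA]
  refine mlsi_calc (K := (3 * |M| + 2 * C * n + L ^ 2)
      * IB δ (fun z : Fin n → ℝ => wz z / Q z) (fun z => Real.exp (f z)))
    (s0 := min s1 (min (1 / 102) (1 / (L + 1)))) hI0 hG0 (by positivity) ?_
  intro s hs hs0
  have hsa : s ≤ s1 := le_trans hs0 (min_le_left _ _)
  have hsb : s ≤ 1 / 102 := le_trans hs0 (le_trans (min_le_right _ _) (min_le_left _ _))
  have hsc : s ≤ 1 / (L + 1) := le_trans hs0 (le_trans (min_le_right _ _) (min_le_right _ _))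
  have hsL : s * L ≤ 1 := by
    have h1 : s * (L + 1) ≤ 1 := by
      rw [le_div_iff₀ (by linarith)] at hsc
      exact hsc
    nlinarith
  have h1s : 0 < 1 - s := by linarith
  have hJ : 0 < IB δ (fun z : Fin n → ℝ => wz z / Q z)
      (fun z => Real.exp (f z)) + s / (1 - s) * IB δ (fun z : Fin n → ℝ => wz z / Q z)
      (fun z => f z * Real.exp (f z)) := hs1' ⟨hs, hsa⟩
  have hP := hPLS n δ Q f D C hL s hs hsb
  -- lower bound of the left side
  have hlow : IB δ (fun z : Fin n → ℝ => wz z / Q z)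
      (fun z => Real.exp (f z)) + s / (1 - s) * IB δ (fun z : Fin n → ℝ => wz z / Q z)
      (fun z => f z * Real.exp (f z))
      ≤ IB δ (fun z : Fin n → ℝ => wz z / Q z) (fun z => Real.exp (f z / (1 - s))) := by
    have c1 : ContinuousOn (fun z : Fin n → ℝ => s / (1 - s) * (f z * Real.exp (f z)))
        (Bx n δ) := continuousOn_const.mul (hL.fc.mul hef)
    rw [← mlsi_smul, ← mlsi_add hρ hef c1]
    refine mlsi_mono hρ hρ0 (hef.add c1) ?_ ?_
    · exact Real.continuous_exp.comp_continuousOn (hL.fc.div_const _)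
    · intro z _
      exact mlsi_low hs hsb
  -- upper bound of the right side
  have hup : IB δ (fun z : Fin n → ℝ => wz z / Q z) (fun z => Real.exp (f z
          + s / (3 * (1 - s) ^ 2) * ∑ x, (z x * D x z) ^ 2 + 2 * C * n * s ^ 2))
      ≤ IB δ (fun z : Fin n → ℝ => wz z / Q z) (fun z => Real.exp (f z))
        + s * IB δ (fun z : Fin n → ℝ => wz z / Q z)
          (fun z => Real.exp (f z) * (1 / 3 * ∑ x, (z x * D x z) ^ 2))
        + (3 * |M| + 2 * C * n + L ^ 2)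
          * IB δ (fun z : Fin n → ℝ => wz z / Q z) (fun z => Real.exp (f z)) * s ^ 2 := by
    have e1 : (3 * |M| + 2 * C * n + L ^ 2)
          * IB δ (fun z : Fin n → ℝ => wz z / Q z) (fun z => Real.exp (f z)) * s ^ 2
        = IB δ (fun z : Fin n → ℝ => wz z / Q z)
          (fun z => (3 * |M| + 2 * C * n + L ^ 2) * s ^ 2 * Real.exp (f z)) := by
      rw [mlsi_smul]
      ring
    have c1 : ContinuousOn (fun z : Fin n → ℝ =>
        s * (Real.exp (f z) * (1 / 3 * ∑ x, (z x * D x z) ^ 2))) (Bx n δ) :=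
      continuousOn_const.mul (hef.mul hA)
    have c2 : ContinuousOn (fun z : Fin n → ℝ =>
        (3 * |M| + 2 * C * n + L ^ 2) * s ^ 2 * Real.exp (f z)) (Bx n δ) :=
      continuousOn_const.mul hef
    have c3 : ContinuousOn (fun z : Fin n → ℝ => Real.exp (f z)
        + s * (Real.exp (f z) * (1 / 3 * ∑ x, (z x * D x z) ^ 2))) (Bx n δ) := hef.add c1
    rw [e1, ← mlsi_smul, ← mlsi_add hρ hef c1, ← mlsi_add hρ c3 c2]
    refine mlsi_mono hρ hρ0 ?_ (c3.add c2) ?_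
    · refine Real.continuous_exp.comp_continuousOn ?_
      exact (hL.fc.add (continuousOn_const.mul hS)).add continuousOn_const
    · intro z hz
      have hA0 : 0 ≤ 1 / 3 * ∑ x, (z x * D x z) ^ 2 := by positivity
      have e2 : f z + s / (3 * (1 - s) ^ 2) * ∑ x, (z x * D x z) ^ 2 + 2 * C * n * s ^ 2
          = f z + (s / (1 - s) ^ 2 * (1 / 3 * ∑ x, (z x * D x z) ^ 2)
            + 2 * C * n * s ^ 2) := by
        field_simp
        ring
      rw [e2]
      exact mlsi_pt hA0 (hM' z hz) hc hLdef hs hsb hsL rfl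
  have hX : 0 < IB δ (fun z : Fin n → ℝ => wz z / Q z) (fun z => Real.exp (f z / (1 - s))) :=
    lt_of_lt_of_le hJ hlow
  have hlog := Real.log_le_log (by positivity) (le_trans hP hup)
  rw [Real.log_mul (Real.rpow_pos_of_pos hX _).ne' (Real.rpow_pos_of_pos hG0 _).ne',
    Real.log_rpow hX, Real.log_rpow hG0] at hlog
  refine le_trans ?_ hlog
  have h5 := Real.log_le_log hJ hlow
  have h6 := mul_le_mul_of_nonneg_left h5 h1s.le
  linarith

end Pool.Agent.Helper44.GN
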